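import Mathlib

set_option autoImplicit false

/-! # Arcs are retracts of normal spaces, and some consequences -/

namespace Pool.Agent.KS6_5.Arc

universe u v

open Topology

/-- An arc in a normal space is a retract. -/
theorem exists_retract_normal {Y : Type u} [TopologicalSpace Y] [T4Space Y] (e : unitInterval → Y)
    (he : IsEmbedding e) : ∃ ρ : Y → unitInterval, Continuous ρ ∧ ∀ t, ρ (e t) = t := by
  have hc : IsClosedEmbedding e := ⟨he, (isCompact_range he.continuous).isClosed⟩
  obtain ⟨g, hg⟩ := ContinuousMap.exists_extension hc (ContinuousMap.id unitInterval)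
  refine ⟨g, g.continuous, fun t => ?_⟩
  have := DFunLike.congr_fun hg t
  simpa using this

/-- An arc in a Tychonoff space is a retract. -/
theorem exists_retract {Y : Type u} [TopologicalSpace Y] [T35Space Y] (e : unitInterval → Y)
    (he : IsEmbedding e) : ∃ ρ : Y → unitInterval, Continuous ρ ∧ ∀ t, ρ (e t) = t := by
  obtain ⟨ρ, hρ, h⟩ := exists_retract_normal (fun t => stoneCechUnit (e t))
    (isEmbedding_stoneCechUnit.comp he)
  exact ⟨fun y => ρ (stoneCechUnit y), hρ.comp continuous_stoneCechUnit, h⟩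

/-- A space with a retract without the fixed-point property does not have it either. -/
theorem noFix_of_retract {A : Type u} {X : Type v} [TopologicalSpace A] [TopologicalSpace X]
    (i : A → X) (r : X → A) (hi : Continuous i) (hr : Continuous r) (hri : ∀ a, r (i a) = a)
    (h : ∃ g : A → A, Continuous g ∧ ∀ a, g a ≠ a) : ∃ g : X → X, Continuous g ∧ ∀ x, g x ≠ x := by
  obtain ⟨g, hg, hne⟩ := h
  refine ⟨i ∘ g ∘ r, hi.comp (hg.comp hr), fun x hx => ?_⟩
  apply hne (r x)
  have := congrArg r hx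
  simp only [Function.comp_apply] at this
  rw [hri] at this
  exact this

theorem noFix_prod {K : Type u} [TopologicalSpace K] {Y : Type v} [TopologicalSpace Y] [T35Space Y]
    (e : unitInterval → Y) (he : IsEmbedding e)
    (h : ∃ g : K × unitInterval → K × unitInterval, Continuous g ∧ ∀ p, g p ≠ p) :
    ∃ g : K × Y → K × Y, Continuous g ∧ ∀ p, g p ≠ p := by
  obtain ⟨ρ, hρ, hρe⟩ := exists_retract e he
  refine noFix_of_retract (fun p : K × unitInterval => (p.1, e p.2)) (fun q : K × Y => (q.1, ρ q.2))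
    ?_ ?_ ?_ h
  · exact continuous_fst.prodMk (he.continuous.comp continuous_snd)
  · exact continuous_fst.prodMk (hρ.comp continuous_snd)
  · rintro ⟨a, t⟩
    simp [hρe]

theorem noFix_pow {K : Type u} [TopologicalSpace K] (n : ℕ) (hn : 2 ≤ n)
    (h : ∃ g : K × K → K × K, Continuous g ∧ ∀ p, g p ≠ p) :
    ∃ g : (Fin n → K) → (Fin n → K), Continuous g ∧ ∀ p, g p ≠ p := by
  refine noFix_of_retract (fun (p : K × K) (j : Fin n) => if j = ⟨0, by omega⟩ then p.1 else p.2)
    (fun q : Fin n → K => (q ⟨0, by omega⟩, q ⟨1, by omega⟩)) ?_ ?_ ?_ h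
  · refine continuous_pi (fun j => ?_)
    by_cases hj : j = ⟨0, by omega⟩
    · simp only [hj, if_true]
      exact continuous_fst
    · simp only [hj, if_false]
      exact continuous_snd
  · exact (continuous_apply _).prodMk (continuous_apply _)
  · rintro ⟨a, b⟩
    simp

theorem exists_fixed (f : unitInterval → unitInterval) (hf : Continuous f) : ∃ t, f t = t := by
  have h0 : (f 0 : ℝ) - ((0 : unitInterval) : ℝ) ≥ 0 := by
    have := (f 0).2.1
    simpa using this
  have h1 : (f 1 : ℝ) - ((1 : unitInterval) : ℝ) ≤ 0 := by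
    have := (f 1).2.2
    simpa using this
  have hc : Continuous (fun t : unitInterval => (f t : ℝ) - t) :=
    (continuous_subtype_val.comp hf).sub continuous_subtype_val
  obtain ⟨t, ht⟩ := mem_range_of_exists_le_of_exists_ge hc ⟨1, h1⟩ ⟨0, h0⟩
  refine ⟨t, Subtype.ext ?_⟩
  simp only at ht
  linarith

/-- Commuting maps without common periodic point pass from an arc to a Tychonoff space. -/
theorem commuting {Y : Type u} [TopologicalSpace Y] [T35Space Y] (e : unitInterval → Y)
    (he : IsEmbedding e) (f g : unitInterval → unitInterval) (hf : Continuous f)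
    (hg : Continuous g) (hfg : f ∘ g = g ∘ f)
    (hne : ∀ x, ∀ m n : ℕ, 1 ≤ m → 1 ≤ n → f^[m] x = x → g^[n] x = x → False) :
    ∃ F G : Y → Y, Continuous F ∧ Continuous G ∧ F ∘ G = G ∘ F ∧
      (∀ t, F (e t) = e (f t)) ∧ (∀ t, G (e t) = e (g t)) ∧
      (∀ y, F y ∈ Set.range e) ∧ (∀ y, G y ∈ Set.range e) ∧
      ∀ y, ∀ m n : ℕ, 1 ≤ m → 1 ≤ n → F^[m] y = y → G^[n] y = y → False := by
  obtain ⟨ρ, hρ, hρe⟩ := exists_retract e he
  have hcomp : ∀ (a b : unitInterval → unitInterval),
      (e ∘ a ∘ ρ) ∘ (e ∘ b ∘ ρ) = e ∘ (a ∘ b) ∘ ρ := by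
    intro a b
    funext y
    simp [hρe]
  have hiter : ∀ (a : unitInterval → unitInterval) (n : ℕ) (y : Y),
      (e ∘ a ∘ ρ)^[n + 1] y = e (a^[n + 1] (ρ y)) := by
    intro a n
    induction n with
    | zero => intro y; simp
    | succ n ih =>
      intro y
      rw [Function.iterate_succ_apply', ih, Function.iterate_succ_apply' a (n + 1)]
      change e (a (ρ (e _))) = _
      rw [hρe]
  refine ⟨e ∘ f ∘ ρ, e ∘ g ∘ ρ, he.continuous.comp (hf.comp hρ), he.continuous.comp (hg.comp hρ),
    ?_, fun t => by simp [hρe], fun t => by simp [hρe], fun y => ⟨_, rfl⟩, fun y => ⟨_, rfl⟩, ?_⟩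
  · rw [hcomp, hcomp, hfg]
  · intro y m n hm hn h1 h2
    obtain ⟨m, rfl⟩ := Nat.exists_eq_add_of_le' hm
    obtain ⟨n, rfl⟩ := Nat.exists_eq_add_of_le' hn
    rw [hiter] at h1 h2
    have h3 := congrArg ρ h1
    have h4 := congrArg ρ h2
    rw [hρe] at h3 h4
    exact hne (ρ y) (m + 1) (n + 1) (by omega) (by omega) h3 h4

end Pool.Agent.KS6_5.Arc
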