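import Mathlib
import Pool.Agent.KS6_5.Arc.Retract
import Pool.Graph.R_seed8.Helper182.BFpp
import Pool.Graph.R_seed8.Helper182.BD4
import Pool.Graph.R_seed8.Helper182.BE5
import Pool.Graph.R_seed8.Helper182.BB1

set_option autoImplicit false

/-! # Products of a one-dimensional continuum with the fixed-point property -/

namespace Pool.Agent.KS6_5.Arc

open Topology Pool.Agent.Helper182.Bing

universe v

/-- The continuum of the library contains an arc. -/
theorem exists_arc : ∃ e : unitInterval → K, IsEmbedding e := by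
  have : T2Space K := inferInstance
  refine ⟨fun t => ray 0 (t : ℝ), ?_⟩
  have hc : Continuous (fun t : unitInterval => ray 0 (t : ℝ)) :=
    (continuous_ray 0).comp continuous_subtype_val
  refine (hc.isClosedEmbedding ?_).isEmbedding
  intro s t hst
  have h := congrArg (fun k : K => k.1.2 0) hst
  have hs := s.2
  have ht := t.2
  simp only [ray, Phi, Pi.single_eq_same] at h
  rw [max_eq_left hs.1, max_eq_left ht.1] at h
  have hs1 : (0 : ℝ) < 1 + s := by linarith [hs.1]
  have ht1 : (0 : ℝ) < 1 + t := by linarith [ht.1]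
  have e1 : 1 / (1 + (s : ℝ)) * (1 - 1 / (1 + (s : ℝ))) = s / (1 + s) ^ 2 := by
    field_simp
    ring
  have e2 : 1 / (1 + (t : ℝ)) * (1 - 1 / (1 + (t : ℝ))) = t / (1 + t) ^ 2 := by
    field_simp
    ring
  rw [e1, e2, div_eq_div_iff (by positivity) (by positivity)] at h
  have h3 : ((s : ℝ) - t) * (1 - s * t) = 0 := by nlinarith
  rcases mul_eq_zero.mp h3 with h4 | h4
  · exact Subtype.ext (by linarith)
  · have h5 : (s : ℝ) * t = 1 := by linarith
    have h6 : (s : ℝ) = 1 := by nlinarith [hs.1, hs.2, ht.1, ht.2]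
    have h7 : (t : ℝ) = 1 := by nlinarith [hs.1, hs.2, ht.1, ht.2]
    exact Subtype.ext (by rw [h6, h7])

theorem main : ∃ (K : Type) (_ : MetricSpace K) (_ : CompactSpace K) (_ : ConnectedSpace K),
    (∀ (n : ℕ) (U : Fin n → Set K), (∀ i, IsOpen (U i)) → (⋃ i, U i) = Set.univ →
      ∃ (m : ℕ) (V : Fin m → Set K), (∀ j, IsOpen (V j)) ∧ (⋃ j, V j) = Set.univ ∧
        (∀ j, ∃ i, V j ⊆ U i) ∧
        (∀ (x : K) (a b c : Fin m), x ∈ V a → x ∈ V b → x ∈ V c → a = b ∨ a = c ∨ b = c)) ∧
    (∀ f : K → K, Continuous f → ∃ x, f x = x) ∧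
    (∃ e : unitInterval → K, IsEmbedding e) ∧
    (∀ (Y : Type v) [TopologicalSpace Y] [T35Space Y] (e : unitInterval → Y), IsEmbedding e →
      ∃ g : K × Y → K × Y, Continuous g ∧ ∀ p, g p ≠ p) ∧
    (∀ n : ℕ, 2 ≤ n → ∃ g : (Fin n → K) → (Fin n → K), Continuous g ∧ ∀ p, g p ≠ p) := by
  have h1 : CompactSpace K := compactSpace_K
  have h2 : ConnectedSpace K := connectedSpace_K
  have h3 : TopologicalSpace.MetrizableSpace K :=
    TopologicalSpace.metrizableSpace_of_t3_secondCountable _
  let _ : MetricSpace K := TopologicalSpace.metrizableSpaceMetric _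
  refine ⟨K, inferInstance, h1, h2, dim_K, fpp, exists_arc, ?_, ?_⟩
  · intro Y _ _ e he
    exact noFix_prod e he exists_fpf
  · intro n hn
    obtain ⟨e, he⟩ := exists_arc
    exact noFix_pow n hn (noFix_prod e he exists_fpf)

end Pool.Agent.KS6_5.Arc
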